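import Pool.Agent.H.MP_f8c24f_lc.Geo
import Pool.Agent.Results.MP_f73e8c_lc.Hard

namespace Pool.Agent.Results.MP_f8c24f_lc.Hard
open Pool.Agent.Lib.CX Pool.Agent.H.MP_f8c24f_lc
open Pool.Agent.H.MP_f73e8c_lc (arcs term mem_arcs core_ok rc sc up)
open Pool.Agent.Results.MP_f73e8c_lc.Hard (K ty ty_lt lt sound complete)

def tr (L : ℕ) (a : H.MP_f73e8c_lc.Inst) : Inst :=
  (a.1.map fun e => (emb L e.1, emb L e.2), a.2.1.map fun e => (emb L e.1, emb L e.2), a.2.2)

theorem tr_iff {L : ℕ} (hL : 2 ≤ L) (a : H.MP_f73e8c_lc.Inst) : H.MP_f73e8c_lc.Solvable a ↔ Solvable (tr L a) := by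
  have inj := em_inj hL
  have key : ∀ t P, H.MP_f73e8c_lc.IsPath a.1 t P ↔ IsPath (tr L a).1 (emb L t.1, emb L t.2) (P.map (emb L)) := fun t P => by
    have : ∀ u v, (∃ e ∈ a.1, e.1 = u ∧ e.2 = v) ↔ (u, v) ∈ a.1 := fun u v =>
      ⟨fun ⟨_, h, h1, h2⟩ => h1 ▸ h2 ▸ h, fun h => ⟨_, h, rfl, rfl⟩⟩
    simp [H.MP_f73e8c_lc.IsPath, IsPath, tr, List.nodup_map_iff inj, List.isChain_map, inj.eq_iff, this, -Prod.exists]
  constructor
  · rintro ⟨P, h1, h2⟩
    refine ⟨fun i => (P i).map (emb L), fun i hi => ?_, fun q hq => (List.disjoint_map inj (h2 q hq))⟩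
    simpa [tr] using (key _ _).1 (h1 i (by simpa [tr] using hi))
  · rintro ⟨P, h1, h2⟩
    have e : ∀ i, ∃ Q : List (ℕ × ℕ × ℕ), (∀ x ∈ Q, emb L x ∈ P i) ∧ (i < a.2.1.length → Q.map (emb L) = P i) := fun i => by
      by_cases hi : i < a.2.1.length
      · obtain ⟨p1, -, -, p4⟩ := h1 i (by simpa [tr] using hi)
        have : ∀ v ∈ P i, ∃ x, emb L x = v := by
          cases hP : P i with
          | nil => simp
          | cons v l =>
            rw [hP] at p1 p4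
            have p5 : ∃ x, emb L x = v := ⟨_, by simpa [tr] using (Option.some.inj p1).symm⟩
            refine List.forall_mem_cons.2 ⟨p5, List.IsChain.cons_induction (p := fun v => ∃ x, emb L x = v) _ p4
              (fun u v h _ => ?_) p5⟩
            obtain ⟨e, -, h⟩ := List.mem_map.1 h
            exact ⟨_, (Prod.mk.inj h).2⟩
        have : CanLift Vx (ℕ × ℕ × ℕ) (emb L) fun v => ∃ x, emb L x = v := ⟨fun _ h => h⟩
        obtain ⟨Q, hQ⟩ := (List.canLift (emb L) _).prf (P i) ‹_›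
        exact ⟨Q, fun x hx => hQ ▸ List.mem_map_of_mem hx, fun _ => hQ⟩
      · exact ⟨[], by simp, fun h => (hi h).elim⟩
    choose Q q1 q2 using e
    refine ⟨Q, fun i hi => (key _ _).2 ?_, fun q hq x x1 x2 => h2 q hq (q1 _ _ x1) (q1 _ _ x2)⟩
    rw [q2 i hi]
    simpa [tr] using h1 i (by simpa [tr] using hi)

def red (φ : List (Cl3 ℕ)) : Inst := tr (K φ + 2) (MP_f73e8c_lc.Hard.red φ)

theorem valid (φ) : Valid 12 (red φ) := by
  classical
  have inj := em_inj (show 2 ≤ K φ + 2 by omega)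
  obtain ⟨-, h2, h3, h4, h5, -⟩ := MP_f73e8c_lc.Hard.valid φ
  have lg : ∀ e ∈ (red φ).1, Legal (K φ + 2) e := fun e he => by
    obtain ⟨e, he', rfl⟩ := List.mem_map.1 he
    rcases mem_arcs.1 he' with ⟨⟨⟨a, b⟩, c, d⟩, hc, rfl⟩ | ⟨i, hi, rfl | rfl⟩
    · rcases core_ok _ hc with h | h | h | h <;> simp only [Prod.mk.injEq] at h <;> obtain ⟨rfl, rfl⟩ := h
      exacts [⟨a, d, 0, by omega, rfl⟩, ⟨c, b, 1, by omega, rfl⟩, ⟨c, b, 0, by omega, Sym2.eq_swap⟩,
        ⟨a, d, 1, by omega, Sym2.eq_swap⟩]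
    · exact ⟨_, _, i + 2, by omega, Sym2.eq_swap⟩
    · exact ⟨_, _, i + 2, by omega, rfl⟩
  have h6 : ∀ t ∈ (red φ).2.1, (∃ e ∈ (red φ).1, e.1 = t.1) ∧ ∃ e ∈ (red φ).1, e.2 = t.2 := fun t ht => by
    obtain ⟨t, ht', rfl⟩ := List.mem_map.1 ht
    obtain ⟨⟨e, p1, p2⟩, e', p3, p4⟩ := h3 t ht'
    exact ⟨⟨_, List.mem_map_of_mem p1, congrArg (emb _) p2⟩, _, List.mem_map_of_mem p3, congrArg (emb _) p4⟩
  let z : ℕ × ℕ → ℝ × ℝ := fun p => gg (K φ + 2) p.1 p.2 (1, 1 / 2)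
  refine ⟨plane lg, ?_, h6, h4, by simpa [red, tr] using h5,
    (Finset.range 6).image (z ∘ rc) ∪ (Finset.range 6).image (z ∘ sc), (Finset.card_union_le ..).trans
      (add_le_add (b := 6) (d := 6) (Finset.card_image_le.trans (by simp)) (Finset.card_image_le.trans (by simp))), fun t ht => ?_⟩
  · simpa [red, tr, Function.comp_def] using h2.map inj
  · obtain ⟨⟨e, p1, p2⟩, e', p3, p4⟩ := h6 t ht
    obtain ⟨t, ht', rfl⟩ := List.mem_map.1 ht
    obtain ⟨i, hi, rfl⟩ := List.mem_map.1 ht'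
    have hi := List.mem_range.1 hi
    have := Finset.mem_range.2 (ty_lt φ i)
    exact ⟨⟨_, Finset.mem_union_left _ (Finset.mem_image_of_mem _ this),
      tip lg (by omega) (by omega) ⟨e, p1, .inl p2⟩⟩, _, Finset.mem_union_right _ (Finset.mem_image_of_mem _ this),
      tip lg (by omega) (by omega) ⟨e', p3, .inr p4⟩⟩

theorem pt_red : PT red := by
  have h1 := MP_f73e8c_lc.Hard.pt_red
  have h2 : PT fun q : ℕ × ℕ × ℕ × ℕ => emb q.1 q.2 := by unfold emb; fun_prop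
  have h3 : PT fun q : ℕ × H.MP_f73e8c_lc.Inst => tr q.1 q.2 := by unfold tr emb; fun_prop
  exact h3.comp (g := fun φ => (K φ + 2, MP_f73e8c_lc.Hard.red φ)) (by unfold K; fun_prop)

theorem result : NPHard fun a : {a : Inst // Valid 12 a} => Solvable a.1 := by
  refine NPHard.of_sat3 _ (pt_red.subtype valid) fun φ hφ => Iff.trans ?_ (tr_iff (by omega) _)
  have e : ∀ j (hj : j < φ.length), ∀ t < 3, lt φ (3 * j + t) = litOf (φ[j], t) := fun j hj t ht => by
    simp [lt, show (3 * j + t) / 3 = j by omega, show (3 * j + t) % 3 = t by omega, hj]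
  have e2 : Sat3 φ ↔ ∃ v : ℕ → Bool, ∀ j < φ.length, ∃ t < 3, v (lt φ (3 * j + t)).1 = (lt φ (3 * j + t)).2 := by
    refine exists_congr fun v => (List.forall_mem_iff_forall_getElem ..).trans (forall₂_congr fun j hj => ?_)
    rw [ok_iff]
    exact exists_congr fun t => and_congr_right fun ht => by rw [e j hj t ht]
  rw [e2]
  refine ⟨fun ⟨v, h⟩ => ?_, sound fun o ho => ?_⟩
  · choose! c hc using h
    exact complete v c hc
  · have hj : o / 3 < φ.length := by omega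
    rw [show o = 3 * (o / 3) + o % 3 by omega, e _ hj _ (by omega)]
    refine hφ _ (List.getElem_mem hj) _ ?_
    have : o % 3 < 3 := by omega
    generalize o % 3 = t at this
    interval_cases t <;> simp [litOf, Cl3.vars]

end Pool.Agent.Results.MP_f8c24f_lc.Hard
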